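import Pool.Agent.N748.GC.RZ
import Pool.Agent.N748.GC.ERG

set_option autoImplicit false

/-! Characters of finitely many primes under the density of the finite Euler product. -/

namespace Pool.Agent.U899.TW

open Finset Filter MeasureTheory Topology Complex UnitAddTorus
open Pool.Agent.N748.GC

/-- the local integral -/
noncomputable def q (α : ℝ) (p : ℕ) (m : ℤ) : ℂ :=
  ∫ y, (fourier m y : ℂ) * ((Real.exp (lw α p y) : ℝ) : ℂ) ∂(AddCircle.haarAddCircle (T := (1:ℝ)))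

theorem q_zero (α : ℝ) (p : ℕ) :
    q α p 0 = ((∫ y, Real.exp (lw α p y) ∂(AddCircle.haarAddCircle (T := (1:ℝ))) : ℝ) : ℂ) := by
  unfold q
  rw [← integral_complex_ofReal]
  refine integral_congr_ae (ae_of_all _ fun y => ?_)
  simp

/-- extension by zero -/
noncomputable def ext {P : Finset ℕ} (n : P → ℤ) (p : ℕ) : ℤ := open Classical in if h : p ∈ P then n ⟨p, h⟩ else 0

theorem ext_mem {P : Finset ℕ} (n : P → ℤ) (p : P) : ext n (p : ℕ) = n p := by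
  unfold ext
  rw [dif_pos p.2]

theorem ext_nmem {P : Finset ℕ} (n : P → ℤ) {p : ℕ} (hp : p ∉ P) : ext n p = 0 := by
  unfold ext
  rw [dif_neg hp]

theorem int_char (α : ℝ) (Q : Finset ℕ) (e : ℕ → ℤ) :
    ∫ x : UnitAddTorus Q, mFourier (fun p : Q => e p) x * ((M0 α Q x : ℝ) : ℂ) ∂(HP Q) =
      ∏ p ∈ Q, q α p (e p) / q α p 0 := by
  have h1 : ∀ x : UnitAddTorus Q, mFourier (fun p : Q => e p) x * ((M0 α Q x : ℝ) : ℂ) =
      (∏ p : Q, (fourier (e p) (x p) : ℂ) * ((Real.exp (lw α p (x p)) : ℝ) : ℂ)) / ((E0 α Q : ℝ) : ℂ) := by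
    intro x
    unfold M0
    rw [Real.exp_sum]
    push_cast
    rw [Finset.prod_mul_distrib, mul_div_assoc]
    rfl
  simp only [h1]
  rw [integral_div]
  have h2 : ∫ x : UnitAddTorus Q, ∏ p : Q, (fourier (e p) (x p) : ℂ) * ((Real.exp (lw α p (x p)) : ℝ) : ℂ) ∂(HP Q) =
      ∏ p : Q, q α p (e p) := by
    unfold HP
    exact integral_fintype_prod_eq_prod
      (μ := fun _ : Q => (AddCircle.haarAddCircle (T := (1:ℝ))))
      (fun p : Q => fun y => (fourier (e p) y : ℂ) * ((Real.exp (lw α p y) : ℝ) : ℂ))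
  rw [h2]
  have h3 : ((E0 α Q : ℝ) : ℂ) = ∏ p : Q, q α p 0 := by
    unfold E0
    push_cast
    exact Finset.prod_congr rfl fun p _ => (q_zero α p).symm
  rw [h3, ← Finset.prod_div_distrib]
  exact Finset.prod_coe_sort Q (fun p => q α p (e p) / q α p 0)

theorem int_ext (α : ℝ) {P Q : Finset ℕ} (hQ : ∀ p ∈ Q, p.Prime) (hPQ : P ⊆ Q) (n : P → ℤ) :
    ∫ x : UnitAddTorus Q, mFourier (fun p : Q => ext n p) x * ((M0 α Q x : ℝ) : ℂ) ∂(HP Q) =
      ∫ x : UnitAddTorus P, mFourier n x * ((M0 α P x : ℝ) : ℂ) ∂(HP P) := by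
  have h1 : (fun p : P => ext n (p : ℕ)) = n := by funext p; exact ext_mem n p
  have h2 := int_char α P (ext n)
  rw [h1] at h2
  rw [h2, int_char α Q (ext n)]
  symm
  refine Finset.prod_subset hPQ fun p hp hp2 => ?_
  rw [ext_nmem n hp2, div_self]
  rw [q_zero]
  exact_mod_cast (RZ.expint_pos α (hQ p hp)).ne'

theorem mF_ext {P Q : Finset ℕ} (hPQ : P ⊆ Q) (n : P → ℤ) (t : ℝ) :
    mFourier (fun p : Q => ext n p) (pt Q t) = mFourier n (pt P t) := by
  rw [ERG.mF_pt, ERG.mF_pt]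
  congr 3
  unfold ERG.fr
  congr 2
  have h1 : ∑ p : Q, ((ext n (p:ℕ) : ℤ) : ℝ) * Real.log (p : ℕ) = ∑ p ∈ Q, ((ext n p : ℤ) : ℝ) * Real.log p :=
    Finset.sum_coe_sort Q (fun p => ((ext n p : ℤ) : ℝ) * Real.log p)
  have h2 : ∑ p : P, ((ext n (p:ℕ) : ℤ) : ℝ) * Real.log (p : ℕ) = ∑ p ∈ P, ((ext n p : ℤ) : ℝ) * Real.log p :=
    Finset.sum_coe_sort P (fun p => ((ext n p : ℤ) : ℝ) * Real.log p)
  simp only [ext_mem] at h2
  rw [h1, h2]
  symm
  refine Finset.sum_subset hPQ fun p _ hp2 => ?_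
  rw [ext_nmem n hp2]
  simp

end Pool.Agent.U899.TW
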