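import Pool.Agent.U899.TW.Erg
import Pool.Agent.N748.GC.Fin

set_option autoImplicit false

/-! All continuous functions of the phases. -/

namespace Pool.Agent.U899.TW

open Finset Filter MeasureTheory Topology Complex UnitAddTorus
open Pool.Agent.N748.GC

section

variable {α : ℝ} {δ H : ℝ → ℝ} {P : Finset ℕ}

theorem Zn_nonneg {α δ : ℝ} (hδ : 0 < δ) (ha : 0 < aa α) (u : ℝ) : 0 ≤ Zn α δ u := by
  unfold Zn
  have h1 : 0 ≤ (2 * δ) ^ (α ^ 2) := by positivity
  have h2 : 0 ≤ ‖riemannZeta (1 / 2 + δ + u * I)‖ ^ (2 * α) := Real.rpow_nonneg (norm_nonneg _) _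
  positivity

theorem LL_add (hP : ∀ p ∈ P, p.Prime) (G G' : C(UnitAddTorus P, ℂ)) :
    LL α P (G + G' : C(UnitAddTorus P, ℂ)) = LL α P G + LL α P G' := by
  unfold LL
  have hM : Continuous fun x => ((M0 α P x : ℝ) : ℂ) := Complex.continuous_ofReal.comp (RZ.M0_cont α P hP)
  have hi : ∀ G : C(UnitAddTorus P, ℂ), Integrable (fun x => G x * ((M0 α P x : ℝ) : ℂ)) (HP P) := fun G =>
    (G.continuous.mul hM).integrable_of_hasCompactSupport (HasCompactSupport.of_compactSpace _)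
  rw [← integral_add (hi G) (hi G')]
  refine integral_congr_ae (ae_of_all _ fun x => ?_)
  simp only [ContinuousMap.add_apply]
  ring

theorem LL_smul (c : ℂ) (G : C(UnitAddTorus P, ℂ)) :
    LL α P (c • G : C(UnitAddTorus P, ℂ)) = c * LL α P G := by
  unfold LL
  rw [← integral_const_mul]
  refine integral_congr_ae (ae_of_all _ fun x => ?_)
  simp only [ContinuousMap.smul_apply, smul_eq_mul]
  ring

theorem LL_norm (hP : ∀ p ∈ P, p.Prime) (G : C(UnitAddTorus P, ℂ)) : ‖LL α P G‖ ≤ ‖G‖ := by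
  unfold LL
  have hM : Continuous (M0 α P) := RZ.M0_cont α P hP
  have hi : Integrable (M0 α P) (HP P) := hM.integrable_of_hasCompactSupport (HasCompactSupport.of_compactSpace _)
  calc ‖∫ x, G x * ((M0 α P x : ℝ) : ℂ) ∂(HP P)‖ ≤ ∫ x, ‖G‖ * M0 α P x ∂(HP P) := by
        refine norm_integral_le_of_norm_le (hi.const_mul _) (ae_of_all _ fun x => ?_)
        rw [norm_mul, Complex.norm_real, Real.norm_of_nonneg (RZ.M0_pos α P hP x).le]
        exact mul_le_mul_of_nonneg_right (G.norm_coe_le_norm x) (RZ.M0_pos α P hP x).le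
    _ = ‖G‖ := by rw [integral_const_mul, RZ.M0_int α P hP, mul_one]

/-- the deviation of a continuous function of the phases -/
noncomputable def dv (α : ℝ) (δ H : ℝ → ℝ) (P : Finset ℕ) (G : C(UnitAddTorus P, ℂ)) (T : ℝ) : ℝ :=
  dev α δ H (fun u => G (pt P u)) (LL α P G) T

theorem int_cont {d : ℝ} (hα : 0 < α) (h3 : 0 < d) (h4 : d ≤ 1 / 16) (G : C(UnitAddTorus P, ℂ)) :
    Continuous fun u : ℝ => G (pt P u) * ((Zn α d u : ℝ) : ℂ) :=
  (G.continuous.comp (WIN.pt_cont P)).mul (Complex.continuous_ofReal.comp (WIN.Zn_cont hα h3 h4))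

/-- the deviation in one window -/
noncomputable def kk (α : ℝ) (δ H : ℝ → ℝ) (P : Finset ℕ) (G : C(UnitAddTorus P, ℂ)) (T t : ℝ) : ℂ :=
  (1 / (H T : ℂ)) * (∫ u in t..(t + H T), G (pt P u) * ((Zn α (δ T) u : ℝ) : ℂ)) - LL α P G

theorem dv_eq (G : C(UnitAddTorus P, ℂ)) (T : ℝ) :
    dv α δ H P G T = (1 / T) * ∫ t in (0:ℝ)..T, ‖kk α δ H P G T t‖ := rfl

theorem kk_cont (hα : 0 < α) {T : ℝ} (h3 : 0 < δ T) (h4 : δ T ≤ 1 / 16) (G : C(UnitAddTorus P, ℂ)) :
    Continuous fun t => kk α δ H P G T t :=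
  (continuous_const.mul (prim_contC (int_cont hα h3 h4 G) _)).sub continuous_const

theorem kk_add (hP : ∀ p ∈ P, p.Prime) (hα : 0 < α) {T : ℝ} (h3 : 0 < δ T) (h4 : δ T ≤ 1 / 16)
    (G G' : C(UnitAddTorus P, ℂ)) (t : ℝ) :
    kk α δ H P (G + G') T t = kk α δ H P G T t + kk α δ H P G' T t := by
  unfold kk
  rw [LL_add hP]
  have e1 : ∫ u in t..(t + H T), (G + G' : C(UnitAddTorus P, ℂ)) (pt P u) * ((Zn α (δ T) u : ℝ) : ℂ) =
      (∫ u in t..(t + H T), G (pt P u) * ((Zn α (δ T) u : ℝ) : ℂ)) +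
      ∫ u in t..(t + H T), G' (pt P u) * ((Zn α (δ T) u : ℝ) : ℂ) := by
    rw [← intervalIntegral.integral_add ((int_cont hα h3 h4 G).intervalIntegrable _ _)
      ((int_cont hα h3 h4 G').intervalIntegrable _ _)]
    refine intervalIntegral.integral_congr fun u _ => ?_
    simp only [ContinuousMap.add_apply]
    ring
  rw [e1]
  ring

theorem kk_smul (c : ℂ) (G : C(UnitAddTorus P, ℂ)) (T t : ℝ) :
    kk α δ H P (c • G) T t = c * kk α δ H P G T t := by
  unfold kk
  rw [LL_smul]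
  have e1 : ∫ u in t..(t + H T), (c • G : C(UnitAddTorus P, ℂ)) (pt P u) * ((Zn α (δ T) u : ℝ) : ℂ) =
      c * ∫ u in t..(t + H T), G (pt P u) * ((Zn α (δ T) u : ℝ) : ℂ) := by
    rw [← intervalIntegral.integral_const_mul]
    refine intervalIntegral.integral_congr fun u _ => ?_
    simp only [ContinuousMap.smul_apply, smul_eq_mul]
    ring
  rw [e1]
  ring

/-- the mean of the moments over the windows -/
noncomputable def WW (α : ℝ) (δ H : ℝ → ℝ) (T : ℝ) : ℝ :=
  (1 / T) * ∫ t in (0:ℝ)..T, (1 / H T) * ∫ u in t..(t + H T), Zn α (δ T) u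

theorem WW_lim (hw : S_WIN) (hα : 0 < α) (hα1 : α < 1) (hδ : Pd δ) (hδp : ∀ᶠ T in atTop, 0 < δ T)
    (hH : Tendsto H atTop atTop) (hHT : ∀ᶠ T in atTop, H T ≤ T) : ∀ᶠ T in atTop, WW α δ H T ≤ 2 := by
  have h1 := hw α hα hα1 δ hδ H hH hHT
  have h2 := h1.eventually (Iio_mem_nhds (zero_lt_one))
  filter_upwards [h2, hδp, hδ.t0.eventually_le_const (by norm_num : (0:ℝ) < 1 / 16), eventually_ge_atTop (1:ℝ)]
    with T h5 h3 h4 h6
  have hT0 : 0 < T := by linarith
  have hZ : Continuous (Zn α (δ T)) := WIN.Zn_cont hα h3 h4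
  have c1 : Continuous fun t : ℝ => (1 / H T) * ∫ u in t..(t + H T), Zn α (δ T) u :=
    continuous_const.mul (WIN.prim_cont hZ _)
  unfold WW
  have c2 : Continuous fun t : ℝ => |(1 / H T) * (∫ u in t..(t + H T), Zn α (δ T) u) - 1| :=
    (c1.sub continuous_const).abs
  have c3 : Continuous fun t : ℝ => |(1 / H T) * (∫ u in t..(t + H T), Zn α (δ T) u) - 1| + 1 :=
    c2.add continuous_const
  have e1 : ∫ t in (0:ℝ)..T, (1 / H T) * ∫ u in t..(t + H T), Zn α (δ T) u ≤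
      ∫ t in (0:ℝ)..T, (|(1 / H T) * (∫ u in t..(t + H T), Zn α (δ T) u) - 1| + 1) := by
    refine intervalIntegral.integral_mono_on hT0.le (c1.intervalIntegrable _ _)
      (c3.intervalIntegrable _ _) fun t _ => ?_
    have := le_abs_self ((1 / H T) * (∫ u in t..(t + H T), Zn α (δ T) u) - 1)
    linarith
  rw [intervalIntegral.integral_add (c2.intervalIntegrable _ _) intervalIntegrable_const,
    intervalIntegral.integral_const, smul_eq_mul, sub_zero, mul_one] at e1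
  calc (1 / T) * ∫ t in (0:ℝ)..T, (1 / H T) * ∫ u in t..(t + H T), Zn α (δ T) u ≤
      (1 / T) * ((∫ t in (0:ℝ)..T, |(1 / H T) * (∫ u in t..(t + H T), Zn α (δ T) u) - 1|) + T) :=
        mul_le_mul_of_nonneg_left e1 (by positivity)
    _ = (1 / T) * (∫ t in (0:ℝ)..T, |(1 / H T) * (∫ u in t..(t + H T), Zn α (δ T) u) - 1|) + 1 := by
        field_simp
    _ ≤ 2 := by
        have : (1 / T) * (∫ t in (0:ℝ)..T, |(1 / H T) * (∫ u in t..(t + H T), Zn α (δ T) u) - 1|) < 1 := h5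
        linarith

theorem dv_close (hP : ∀ p ∈ P, p.Prime) (hα : 0 < α) (ha : 0 < aa α) {T : ℝ} (hT : 0 < T) (hH : 0 < H T)
    (h3 : 0 < δ T) (h4 : δ T ≤ 1 / 16) (G : C(UnitAddTorus P, ℂ)) :
    dv α δ H P G T ≤ ‖G‖ * (WW α δ H T + 1) := by
  have hZ : Continuous (Zn α (δ T)) := WIN.Zn_cont hα h3 h4
  have hpt : ∀ t : ℝ, ‖kk α δ H P G T t‖ ≤ ‖G‖ * ((1 / H T) * ∫ u in t..(t + H T), Zn α (δ T) u) + ‖G‖ := by
    intro t
    unfold kk
    refine (norm_sub_le _ _).trans (add_le_add ?_ (LL_norm hP G))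
    rw [norm_mul, norm_div, norm_one, Complex.norm_real, Real.norm_of_nonneg hH.le]
    have e1 : ‖∫ u in t..(t + H T), G (pt P u) * ((Zn α (δ T) u : ℝ) : ℂ)‖ ≤
        ∫ u in t..(t + H T), ‖G‖ * Zn α (δ T) u := by
      refine intervalIntegral.norm_integral_le_of_norm_le (by linarith) (ae_of_all _ fun u _ => ?_)
        ((continuous_const.mul hZ).intervalIntegrable _ _)
      rw [norm_mul, Complex.norm_real, Real.norm_of_nonneg (Zn_nonneg h3 ha u)]
      exact mul_le_mul_of_nonneg_right (G.norm_coe_le_norm _) (Zn_nonneg h3 ha u)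
    rw [intervalIntegral.integral_const_mul] at e1
    calc 1 / H T * ‖∫ u in t..(t + H T), G (pt P u) * ((Zn α (δ T) u : ℝ) : ℂ)‖ ≤
        1 / H T * (‖G‖ * ∫ u in t..(t + H T), Zn α (δ T) u) := mul_le_mul_of_nonneg_left e1 (by positivity)
      _ = _ := by ring
  have c1 : Continuous fun t : ℝ => (1 / H T) * ∫ u in t..(t + H T), Zn α (δ T) u :=
    continuous_const.mul (WIN.prim_cont hZ _)
  have c2 : Continuous fun t : ℝ => ‖G‖ * ((1 / H T) * ∫ u in t..(t + H T), Zn α (δ T) u) := continuous_const.mul c1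
  have c3 : Continuous fun t : ℝ => ‖G‖ * ((1 / H T) * ∫ u in t..(t + H T), Zn α (δ T) u) + ‖G‖ :=
    c2.add continuous_const
  rw [dv_eq]
  have e2 : ∫ t in (0:ℝ)..T, ‖kk α δ H P G T t‖ ≤
      ‖G‖ * (∫ t in (0:ℝ)..T, (1 / H T) * ∫ u in t..(t + H T), Zn α (δ T) u) + T * ‖G‖ := by
    refine (intervalIntegral.integral_mono_on hT.le ((kk_cont hα h3 h4 G).norm.intervalIntegrable _ _)
      (c3.intervalIntegrable _ _) fun t _ => hpt t).trans (le_of_eq ?_)
    rw [intervalIntegral.integral_add (c2.intervalIntegrable _ _) intervalIntegrable_const,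
      intervalIntegral.integral_const, smul_eq_mul, sub_zero, intervalIntegral.integral_const_mul]
  calc (1 / T) * ∫ t in (0:ℝ)..T, ‖kk α δ H P G T t‖ ≤
      (1 / T) * (‖G‖ * (∫ t in (0:ℝ)..T, (1 / H T) * ∫ u in t..(t + H T), Zn α (δ T) u) + T * ‖G‖) :=
        mul_le_mul_of_nonneg_left e2 (by positivity)
    _ = ‖G‖ * (WW α δ H T + 1) := by
        unfold WW
        field_simp

theorem dv_nonneg {T : ℝ} (hT : 0 < T) (G : C(UnitAddTorus P, ℂ)) : 0 ≤ dv α δ H P G T := by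
  rw [dv_eq]
  exact mul_nonneg (by positivity) (intervalIntegral.integral_nonneg hT.le fun t _ => norm_nonneg _)

theorem dv_add (hP : ∀ p ∈ P, p.Prime) (hα : 0 < α) {T : ℝ} (hT : 0 < T)
    (h3 : 0 < δ T) (h4 : δ T ≤ 1 / 16) (G G' : C(UnitAddTorus P, ℂ)) :
    dv α δ H P (G + G') T ≤ dv α δ H P G T + dv α δ H P G' T := by
  rw [dv_eq, dv_eq, dv_eq, ← mul_add, ← intervalIntegral.integral_add
    ((kk_cont hα h3 h4 G).norm.intervalIntegrable _ _) ((kk_cont hα h3 h4 G').norm.intervalIntegrable _ _)]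
  refine mul_le_mul_of_nonneg_left ?_ (by positivity)
  refine intervalIntegral.integral_mono_on hT.le ((kk_cont hα h3 h4 _).norm.intervalIntegrable _ _)
    (((kk_cont hα h3 h4 G).norm.add (kk_cont hα h3 h4 G').norm).intervalIntegrable _ _) fun t _ => ?_
  rw [kk_add hP hα h3 h4]
  exact norm_add_le _ _

theorem dv_smul {T : ℝ} (c : ℂ) (G : C(UnitAddTorus P, ℂ)) :
    dv α δ H P (c • G) T = ‖c‖ * dv α δ H P G T := by
  rw [dv_eq, dv_eq]
  simp only [kk_smul, norm_mul]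
  rw [intervalIntegral.integral_const_mul]
  ring

/-- the law of the phases of the small primes in almost all windows -/
theorem dv_lim (hcore : S_CORE) (herg : S_ERG) (hw : S_WIN) (hα : 0 < α) (hα1 : α < 1) (ha : 0 < aa α) (hδ : Pd δ)
    (hδp : ∀ᶠ T in atTop, 0 < δ T) (hH : Tendsto H atTop atTop) (hHT : ∀ᶠ T in atTop, H T ≤ T)
    (hP : ∀ p ∈ P, p.Prime) (G : C(UnitAddTorus P, ℂ)) : Tendsto (dv α δ H P G) atTop (𝓝 0) := by
  have hgood : ∀ᶠ T in atTop, 0 < T ∧ 0 < H T ∧ 0 < δ T ∧ δ T ≤ 1 / 16 := by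
    filter_upwards [eventually_gt_atTop (0:ℝ), hH.eventually_gt_atTop 0, hδp,
      hδ.t0.eventually_le_const (by norm_num : (0:ℝ) < 1 / 16)] with T h1 h2 h3 h4 using ⟨h1, h2, h3, h4⟩
  let S : Submodule ℂ C(UnitAddTorus P, ℂ) :=
    { carrier := {g | Tendsto (dv α δ H P g) atTop (𝓝 0)}
      add_mem' := fun {a b} ha hb => by
        have ha' : Tendsto (dv α δ H P a) atTop (𝓝 0) := ha
        have hb' : Tendsto (dv α δ H P b) atTop (𝓝 0) := hb
        have h1 := ha'.add hb'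
        rw [add_zero] at h1
        refine squeeze_zero' (hgood.mono fun T hT => dv_nonneg hT.1 _) (hgood.mono fun T hT => ?_) h1
        exact dv_add hP hα hT.1 hT.2.2.1 hT.2.2.2 a b
      zero_mem' := by
        have h1 : dv α δ H P (0 : C(UnitAddTorus P, ℂ)) = fun _ => 0 := by
          funext T
          have := dv_smul (α := α) (δ := δ) (H := H) (T := T) (0:ℂ) (0 : C(UnitAddTorus P, ℂ))
          have e0 : ((0:ℂ) • (0 : C(UnitAddTorus P, ℂ))) = 0 := by ext x; simp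
          rw [e0, norm_zero, zero_mul] at this
          exact this
        change Tendsto (dv α δ H P (0 : C(UnitAddTorus P, ℂ))) atTop (𝓝 0)
        rw [h1]
        exact tendsto_const_nhds
      smul_mem' := fun c a ha => by
        have ha' : Tendsto (dv α δ H P a) atTop (𝓝 0) := ha
        change Tendsto (dv α δ H P (c • a)) atTop (𝓝 0)
        have h1 := ha'.const_mul ‖c‖
        rw [mul_zero] at h1
        exact h1.congr fun T => (dv_smul c a).symm }
  have hS : Submodule.span ℂ (Set.range (mFourier (d := P))) ≤ S := by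
    rw [Submodule.span_le]
    rintro _ ⟨n, rfl⟩
    exact dev_char hcore herg hα hα1 hδ hδp hH hHT hP n
  have hg : G ∈ (Submodule.span ℂ (Set.range (mFourier (d := P)))).topologicalClosure := by
    rw [span_mFourier_closure_eq_top]; trivial
  rw [← SetLike.mem_coe, Submodule.topologicalClosure_coe, Metric.mem_closure_iff] at hg
  rw [Metric.tendsto_nhds]
  intro ε hε
  obtain ⟨G', hG', hd⟩ := hg (ε / 8) (by positivity)
  have h1 : Tendsto (dv α δ H P G') atTop (𝓝 0) := hS hG'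
  rw [Metric.tendsto_nhds] at h1
  filter_upwards [hgood, h1 (ε / 4) (by positivity), WW_lim hw hα hα1 hδ hδp hH hHT] with T hT h2 h5
  rw [dist_eq_norm] at hd
  rw [Real.dist_eq, sub_zero, abs_of_nonneg (dv_nonneg hT.1 _)] at h2 ⊢
  have e1 : G = G' + (G - G') := by abel
  have e2 := dv_add (α := α) (δ := δ) (H := H) hP hα hT.1 hT.2.2.1 hT.2.2.2 G' (G - G')
  rw [← e1] at e2
  have e3 := dv_close (α := α) (δ := δ) (H := H) hP hα ha hT.1 hT.2.1 hT.2.2.1 hT.2.2.2 (G - G')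
  have e4 : ‖G - G'‖ * (WW α δ H T + 1) ≤ ‖G - G'‖ * 3 :=
    mul_le_mul_of_nonneg_left (by linarith) (norm_nonneg _)
  linarith

end

end Pool.Agent.U899.TW
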