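import Pool.Agent.U899.TW.Win

set_option autoImplicit false

/-! The law of the phases of the small primes in almost all windows. -/

namespace Pool.Agent.U899.TW

open Finset Filter MeasureTheory Topology Complex UnitAddTorus
open Pool.Agent.N748.GC

/-- the tilted mean of a character -/
noncomputable def LL (α : ℝ) (P : Finset ℕ) (F : UnitAddTorus P → ℂ) : ℂ :=
  ∫ x, F x * ((M0 α P x : ℝ) : ℂ) ∂(HP P)

theorem erg_char (herg : S_ERG) (α : ℝ) {P : Finset ℕ} {z : ℕ} (hPz : P ⊆ Sm z) (n : P → ℤ) {ε : ℝ} (hε : 0 < ε) :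
    ∃ H0 : ℝ, 0 < H0 ∧ ∀ H ≥ H0, ∀ t : ℝ,
      ‖(1 / (H : ℂ)) * (∫ u in t..(t + H), mFourier n (pt P u) * ((mz α z u : ℝ) : ℂ)) - LL α P (mFourier n)‖ ≤ ε := by
  set N : Sm z → ℤ := fun p => ext n p with hN
  have hM : Continuous (M0 α (Sm z)) := WIN.M0_cont α z
  have c1 : Continuous fun x : UnitAddTorus (Sm z) => (mFourier N x).re * M0 α (Sm z) x :=
    (Complex.continuous_re.comp (mFourier N).continuous).mul hM
  have c2 : Continuous fun x : UnitAddTorus (Sm z) => (mFourier N x).im * M0 α (Sm z) x :=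
    (Complex.continuous_im.comp (mFourier N).continuous).mul hM
  have hp : ∀ p ∈ Sm z, p.Prime := fun p hp => WIN.prime_of_Sm hp
  obtain ⟨H1, hH1, h1⟩ := herg (Sm z) hp _ c1 (ε / 2) (by positivity)
  obtain ⟨H2, hH2, h2⟩ := herg (Sm z) hp _ c2 (ε / 2) (by positivity)
  refine ⟨max H1 H2, lt_max_of_lt_left hH1, fun H hH t => ?_⟩
  have hH0 : 0 < H := lt_of_lt_of_le (lt_max_of_lt_left hH1) hH
  have a1 := h1 H ((le_max_left _ _).trans hH) t
  have a2 := h2 H ((le_max_right _ _).trans hH) t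
  have hpt : Continuous (pt (Sm z)) := WIN.pt_cont _
  have e1 : ∫ u in t..(t + H), mFourier n (pt P u) * ((mz α z u : ℝ) : ℂ) =
      ((∫ u in t..(t + H), (mFourier N (pt (Sm z) u)).re * M0 α (Sm z) (pt (Sm z) u) : ℝ) : ℂ) +
      ((∫ u in t..(t + H), (mFourier N (pt (Sm z) u)).im * M0 α (Sm z) (pt (Sm z) u) : ℝ) : ℂ) * I := by
    rw [← intervalIntegral.integral_ofReal, ← intervalIntegral.integral_ofReal,
      ← intervalIntegral.integral_mul_const, ← intervalIntegral.integral_add]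
    · refine intervalIntegral.integral_congr fun u _ => ?_
      have e2 : mFourier n (pt P u) = mFourier N (pt (Sm z) u) := (mF_ext hPz n u).symm
      simp only [e2]
      unfold mz
      push_cast
      conv_lhs => rw [← Complex.re_add_im (mFourier N (pt (Sm z) u))]
      ring
    · exact (Complex.continuous_ofReal.comp (c1.comp hpt)).intervalIntegrable _ _
    · exact ((Complex.continuous_ofReal.comp (c2.comp hpt)).mul continuous_const).intervalIntegrable _ _
  have e3 : LL α P (mFourier n) =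
      ((∫ x, (mFourier N x).re * M0 α (Sm z) x ∂(HP (Sm z)) : ℝ) : ℂ) +
      ((∫ x, (mFourier N x).im * M0 α (Sm z) x ∂(HP (Sm z)) : ℝ) : ℂ) * I := by
    unfold LL
    rw [← int_ext α hp hPz n]
    have hc : Continuous fun x : UnitAddTorus (Sm z) => mFourier N x * ((M0 α (Sm z) x : ℝ) : ℂ) :=
      (mFourier N).continuous.mul (Complex.continuous_ofReal.comp hM)
    have hi : Integrable (fun x : UnitAddTorus (Sm z) => mFourier N x * ((M0 α (Sm z) x : ℝ) : ℂ)) (HP (Sm z)) :=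
      hc.integrable_of_hasCompactSupport (HasCompactSupport.of_compactSpace _)
    have h3 := integral_re_add_im hi
    have r1 : ∫ x : UnitAddTorus (Sm z), RCLike.re (mFourier N x * ((M0 α (Sm z) x : ℝ) : ℂ)) ∂(HP (Sm z)) =
        ∫ x, (mFourier N x).re * M0 α (Sm z) x ∂(HP (Sm z)) :=
      integral_congr_ae (ae_of_all _ fun x => by simp)
    have r2 : ∫ x : UnitAddTorus (Sm z), RCLike.im (mFourier N x * ((M0 α (Sm z) x : ℝ) : ℂ)) ∂(HP (Sm z)) =
        ∫ x, (mFourier N x).im * M0 α (Sm z) x ∂(HP (Sm z)) :=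
      integral_congr_ae (ae_of_all _ fun x => by simp)
    rw [r1, r2] at h3
    exact h3.symm
  set A1 := ∫ u in t..(t + H), (mFourier N (pt (Sm z) u)).re * M0 α (Sm z) (pt (Sm z) u) with hA1
  set A2 := ∫ u in t..(t + H), (mFourier N (pt (Sm z) u)).im * M0 α (Sm z) (pt (Sm z) u) with hA2
  set B1 := ∫ x, (mFourier N x).re * M0 α (Sm z) x ∂(HP (Sm z)) with hB1
  set B2 := ∫ x, (mFourier N x).im * M0 α (Sm z) x ∂(HP (Sm z)) with hB2
  have e4 : (1 / (H : ℂ)) * ((A1 : ℂ) + (A2 : ℂ) * I) - ((B1 : ℂ) + (B2 : ℂ) * I) =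
      ((A1 / H - B1 : ℝ) : ℂ) + ((A2 / H - B2 : ℝ) : ℂ) * I := by
    push_cast
    ring
  rw [e1, e3, e4]
  refine (norm_add_le _ _).trans ?_
  rw [norm_mul, Complex.norm_I, mul_one, Complex.norm_real, Complex.norm_real]
  have b1 : ‖A1 / H - B1‖ ≤ ε / 2 := a1
  have b2 : ‖A2 / H - B2‖ ≤ ε / 2 := a2
  linarith

/-- the mean deviation over the windows -/
noncomputable def dev (α : ℝ) (δ H : ℝ → ℝ) (φ : ℝ → ℂ) (L : ℂ) (T : ℝ) : ℝ :=
  (1 / T) * ∫ t in (0:ℝ)..T, ‖(1 / (H T : ℂ)) * (∫ u in t..(t + H T), φ u * ((Zn α (δ T) u : ℝ) : ℂ)) - L‖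

theorem prim_contC {G : ℝ → ℂ} (hG : Continuous G) (c : ℝ) : Continuous fun s : ℝ => ∫ u in s..(s + c), G u := by
  have e1 : ∀ s : ℝ, ∫ u in s..(s + c), G u = (∫ u in (0:ℝ)..(s + c), G u) - ∫ u in (0:ℝ)..s, G u := by
    intro s
    rw [← intervalIntegral.integral_interval_sub_left (hG.intervalIntegrable _ _) (hG.intervalIntegrable _ _)]
  simp_rw [e1]
  have h2 : Continuous fun s : ℝ => ∫ u in (0:ℝ)..s, G u :=
    intervalIntegral.continuous_primitive (fun a b => hG.intervalIntegrable a b) 0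
  exact (h2.comp (continuous_id.add continuous_const)).sub h2

theorem dev_char (hcore : S_CORE) (herg : S_ERG) {α : ℝ} (hα : 0 < α) (hα1 : α < 1) {δ : ℝ → ℝ} (hδ : Pd δ)
    (hδp : ∀ᶠ T in atTop, 0 < δ T) {H : ℝ → ℝ}
    (hH : Tendsto H atTop atTop) (hHT : ∀ᶠ T in atTop, H T ≤ T) {P : Finset ℕ} (hP : ∀ p ∈ P, p.Prime) (n : P → ℤ) :
    Tendsto (dev α δ H (fun u => mFourier n (pt P u)) (LL α P (mFourier n))) atTop (𝓝 0) := by
  rw [Metric.tendsto_nhds]
  intro ε hε
  obtain ⟨z0, hz0⟩ := diff_exp hcore hα hα1 hδ hH hHT (ERG.fr n) (ε := ε / 4) (by positivity)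
  obtain ⟨z1, hz1⟩ : ∃ z1 : ℕ, P ⊆ Sm z1 := by
    refine ⟨P.sup id + 1, fun p hp => ?_⟩
    have : p ≤ P.sup id := Finset.le_sup (f := id) hp
    exact RZ.mem_Sm.2 ⟨by omega, hP p hp⟩
  set z := max z0 z1 with hz
  have hPz : P ⊆ Sm z := by
    intro p hp
    have h1 := RZ.mem_Sm.1 (hz1 hp)
    exact RZ.mem_Sm.2 ⟨lt_of_lt_of_le h1.1 (le_max_right _ _), h1.2⟩
  obtain ⟨H0, hH0, hH1⟩ := erg_char herg α hPz n (ε := ε / 4) (by positivity)
  filter_upwards [hz0 z (le_max_left _ _), hH.eventually_ge_atTop H0, hδp,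
    hδ.t0.eventually_le_const (by norm_num : (0:ℝ) < 1 / 16), eventually_ge_atTop (1:ℝ)] with T h1 h2 h3 h4 h5
  have hT0 : 0 < T := by linarith
  have hZ : Continuous (Zn α (δ T)) := WIN.Zn_cont hα h3 h4
  have hM : Continuous (mz α z) := WIN.mz_cont α z
  have hφ : ∀ u : ℝ, mFourier n (pt P u) = Complex.exp ((ERG.fr n : ℂ) * I * u) := fun u => ERG.mF_pt n u
  have hφc : Continuous fun u : ℝ => mFourier n (pt P u) := (mFourier n).continuous.comp (WIN.pt_cont P)
  have hpt : ∀ t : ℝ, ‖(1 / (H T : ℂ)) * (∫ u in t..(t + H T), mFourier n (pt P u) * ((Zn α (δ T) u : ℝ) : ℂ)) -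
      LL α P (mFourier n)‖ ≤ ‖(1 / (H T : ℂ)) * (∫ u in t..(t + H T),
      Complex.exp ((ERG.fr n : ℂ) * I * u) * ((Zn α (δ T) u - mz α z u : ℝ) : ℂ))‖ + ε / 4 := by
    intro t
    have i1 : IntervalIntegrable (fun u : ℝ => mFourier n (pt P u) * ((Zn α (δ T) u : ℝ) : ℂ)) volume t (t + H T) :=
      (hφc.mul (Complex.continuous_ofReal.comp hZ)).intervalIntegrable _ _
    have i2 : IntervalIntegrable (fun u : ℝ => mFourier n (pt P u) * ((mz α z u : ℝ) : ℂ)) volume t (t + H T) :=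
      (hφc.mul (Complex.continuous_ofReal.comp hM)).intervalIntegrable _ _
    have e1 : ∫ u in t..(t + H T), Complex.exp ((ERG.fr n : ℂ) * I * u) * ((Zn α (δ T) u - mz α z u : ℝ) : ℂ) =
        (∫ u in t..(t + H T), mFourier n (pt P u) * ((Zn α (δ T) u : ℝ) : ℂ)) -
        ∫ u in t..(t + H T), mFourier n (pt P u) * ((mz α z u : ℝ) : ℂ) := by
      rw [← intervalIntegral.integral_sub i1 i2]
      refine intervalIntegral.integral_congr fun u _ => ?_
      simp only [hφ]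
      push_cast
      ring
    have e2 := hH1 (H T) h2 t
    rw [e1]
    set A := ∫ u in t..(t + H T), mFourier n (pt P u) * ((Zn α (δ T) u : ℝ) : ℂ)
    set B := ∫ u in t..(t + H T), mFourier n (pt P u) * ((mz α z u : ℝ) : ℂ)
    have e3 : (1 / (H T : ℂ)) * A - LL α P (mFourier n) = (1 / (H T : ℂ)) * (A - B) +
        ((1 / (H T : ℂ)) * B - LL α P (mFourier n)) := by ring
    rw [e3]
    exact (norm_add_le _ _).trans (add_le_add le_rfl e2)
  have k1 : Continuous fun t : ℝ => ‖(1 / (H T : ℂ)) * (∫ u in t..(t + H T),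
      mFourier n (pt P u) * ((Zn α (δ T) u : ℝ) : ℂ)) - LL α P (mFourier n)‖ :=
    ((continuous_const.mul (prim_contC (hφc.mul (Complex.continuous_ofReal.comp hZ)) _)).sub continuous_const).norm
  have k2 : Continuous fun t : ℝ => ‖(1 / (H T : ℂ)) * (∫ u in t..(t + H T),
      Complex.exp ((ERG.fr n : ℂ) * I * u) * ((Zn α (δ T) u - mz α z u : ℝ) : ℂ))‖ :=
    (continuous_const.mul (prim_contC (by fun_prop) _)).norm
  have hfin : ∫ t in (0:ℝ)..T, ‖(1 / (H T : ℂ)) * (∫ u in t..(t + H T),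
      mFourier n (pt P u) * ((Zn α (δ T) u : ℝ) : ℂ)) - LL α P (mFourier n)‖ ≤ ε / 4 * T + T * (ε / 4) := by
    have k3 : Continuous fun t : ℝ => ‖(1 / (H T : ℂ)) * (∫ u in t..(t + H T),
        Complex.exp ((ERG.fr n : ℂ) * I * u) * ((Zn α (δ T) u - mz α z u : ℝ) : ℂ))‖ + ε / 4 := k2.add continuous_const
    refine (intervalIntegral.integral_mono_on hT0.le (k1.intervalIntegrable _ _)
      (k3.intervalIntegrable _ _) fun t _ => hpt t).trans ?_
    rw [intervalIntegral.integral_add (k2.intervalIntegrable _ _) intervalIntegrable_const,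
      intervalIntegral.integral_const, smul_eq_mul, sub_zero]
    exact add_le_add h1 le_rfl
  have hnn : 0 ≤ ∫ t in (0:ℝ)..T, ‖(1 / (H T : ℂ)) * (∫ u in t..(t + H T),
      mFourier n (pt P u) * ((Zn α (δ T) u : ℝ) : ℂ)) - LL α P (mFourier n)‖ :=
    intervalIntegral.integral_nonneg hT0.le fun t _ => norm_nonneg _
  unfold dev
  rw [Real.dist_eq, sub_zero, abs_of_nonneg (mul_nonneg (by positivity) hnn), one_div, inv_mul_lt_iff₀ hT0]
  nlinarith

end Pool.Agent.U899.TW
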