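import Pool.Agent.U899.TW.Id
import Pool.Agent.N748.GC.WIN

set_option autoImplicit false

/-! Windows with a character of the small primes. -/

namespace Pool.Agent.U899.TW

open Finset Filter MeasureTheory Topology Complex UnitAddTorus
open Pool.Agent.N748.GC

theorem window_cos {g : ℝ → ℝ} (hg : Continuous g) (l : ℝ) {c : ℝ} (hc0 : 0 ≤ c) (hc1 : c ≤ 1) (s : ℝ) :
    |∫ u in s..(s + c), Real.cos (l * u) * g u| ≤
      |∫ x in (0:ℝ)..1, ((if x ≤ c then (1:ℝ) else 0) * Real.cos (l * x)) * g (s + x)| +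
      |∫ x in (0:ℝ)..1, ((if x ≤ c then (1:ℝ) else 0) * Real.sin (l * x)) * g (s + x)| := by
  have hG : Continuous fun u => Real.cos (l * u) * g u := by fun_prop
  rw [← WIN.window hG hc0 hc1 s]
  have hm : Measurable fun x : ℝ => if x ≤ c then (1:ℝ) else 0 :=
    Measurable.ite measurableSet_Iic measurable_const measurable_const
  have hint : ∀ w : ℝ → ℝ, Continuous w → IntervalIntegrable
      (fun x => ((if x ≤ c then (1:ℝ) else 0) * w x) * g (s + x)) volume 0 1 := by
    intro w hw
    have h1 : IntervalIntegrable (fun x => w x * g (s + x)) volume 0 1 :=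
      (hw.mul (hg.comp (continuous_const.add continuous_id))).intervalIntegrable _ _
    rw [intervalIntegrable_iff] at h1 ⊢
    have h2 := Integrable.bdd_mul h1 hm.aestronglyMeasurable (c := 1) (Eventually.of_forall fun x => by
      split_ifs <;> simp)
    refine h2.congr (ae_of_all _ fun x => ?_)
    simp only
    ring
  have h1 : ∫ x in (0:ℝ)..1, (if x ≤ c then (1:ℝ) else 0) * (Real.cos (l * (s + x)) * g (s + x)) =
      Real.cos (l * s) * (∫ x in (0:ℝ)..1, ((if x ≤ c then (1:ℝ) else 0) * Real.cos (l * x)) * g (s + x)) -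
      Real.sin (l * s) * (∫ x in (0:ℝ)..1, ((if x ≤ c then (1:ℝ) else 0) * Real.sin (l * x)) * g (s + x)) := by
    rw [← intervalIntegral.integral_const_mul, ← intervalIntegral.integral_const_mul,
      ← intervalIntegral.integral_sub ((hint _ (by fun_prop)).const_mul _) ((hint _ (by fun_prop)).const_mul _)]
    refine intervalIntegral.integral_congr fun x _ => ?_
    rw [mul_add, Real.cos_add]
    ring
  rw [h1]
  refine (abs_sub _ _).trans (add_le_add ?_ ?_)
  · rw [abs_mul]
    exact mul_le_of_le_one_left (abs_nonneg _) (Real.abs_cos_le_one _)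
  · rw [abs_mul]
    exact mul_le_of_le_one_left (abs_nonneg _) (Real.abs_sin_le_one _)

theorem window_sin {g : ℝ → ℝ} (hg : Continuous g) (l : ℝ) {c : ℝ} (hc0 : 0 ≤ c) (hc1 : c ≤ 1) (s : ℝ) :
    |∫ u in s..(s + c), Real.sin (l * u) * g u| ≤
      |∫ x in (0:ℝ)..1, ((if x ≤ c then (1:ℝ) else 0) * Real.cos (l * x)) * g (s + x)| +
      |∫ x in (0:ℝ)..1, ((if x ≤ c then (1:ℝ) else 0) * Real.sin (l * x)) * g (s + x)| := by
  have hG : Continuous fun u => Real.sin (l * u) * g u := by fun_prop
  rw [← WIN.window hG hc0 hc1 s]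
  have hm : Measurable fun x : ℝ => if x ≤ c then (1:ℝ) else 0 :=
    Measurable.ite measurableSet_Iic measurable_const measurable_const
  have hint : ∀ w : ℝ → ℝ, Continuous w → IntervalIntegrable
      (fun x => ((if x ≤ c then (1:ℝ) else 0) * w x) * g (s + x)) volume 0 1 := by
    intro w hw
    have h1 : IntervalIntegrable (fun x => w x * g (s + x)) volume 0 1 :=
      (hw.mul (hg.comp (continuous_const.add continuous_id))).intervalIntegrable _ _
    rw [intervalIntegrable_iff] at h1 ⊢
    have h2 := Integrable.bdd_mul h1 hm.aestronglyMeasurable (c := 1) (Eventually.of_forall fun x => by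
      split_ifs <;> simp)
    refine h2.congr (ae_of_all _ fun x => ?_)
    simp only
    ring
  have h1 : ∫ x in (0:ℝ)..1, (if x ≤ c then (1:ℝ) else 0) * (Real.sin (l * (s + x)) * g (s + x)) =
      Real.sin (l * s) * (∫ x in (0:ℝ)..1, ((if x ≤ c then (1:ℝ) else 0) * Real.cos (l * x)) * g (s + x)) +
      Real.cos (l * s) * (∫ x in (0:ℝ)..1, ((if x ≤ c then (1:ℝ) else 0) * Real.sin (l * x)) * g (s + x)) := by
    rw [← intervalIntegral.integral_const_mul, ← intervalIntegral.integral_const_mul,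
      ← intervalIntegral.integral_add ((hint _ (by fun_prop)).const_mul _) ((hint _ (by fun_prop)).const_mul _)]
    refine intervalIntegral.integral_congr fun x _ => ?_
    rw [mul_add, Real.sin_add]
    ring
  rw [h1]
  refine (abs_add_le _ _).trans (add_le_add ?_ ?_)
  · rw [abs_mul]
    exact mul_le_of_le_one_left (abs_nonneg _) (Real.abs_sin_le_one _)
  · rw [abs_mul]
    exact mul_le_of_le_one_left (abs_nonneg _) (Real.abs_cos_le_one _)

/-- the difference with the finite Euler product, against an exponential -/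
theorem diff_exp (hcore : S_CORE) {α : ℝ} (hα : 0 < α) (hα1 : α < 1) {δ : ℝ → ℝ} (hδ : Pd δ) {H : ℝ → ℝ}
    (hH : Tendsto H atTop atTop) (hHT : ∀ᶠ T in atTop, H T ≤ T) (l : ℝ) {ε : ℝ} (hε : 0 < ε) :
    ∃ z0 : ℕ, ∀ z ≥ z0, ∀ᶠ T in atTop, ∫ t in (0:ℝ)..T, ‖(1 / (H T : ℂ)) * (∫ u in t..(t + H T),
      Complex.exp ((l : ℂ) * I * u) * ((Zn α (δ T) u - mz α z u : ℝ) : ℂ))‖ ≤ ε * T := by
  obtain ⟨z0, hz0⟩ := hcore α hα hα1 (ε / 40) (by positivity)
  refine ⟨z0, fun z hz => ?_⟩
  obtain ⟨lam, δ0, hlam, hδ0, hδ01, hev⟩ := hz0 z hz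
  have hev' : ∀ᶠ T : ℝ in atTop, ∀ δ : ℝ, lam / Real.log (2 * T + 2) ≤ δ → δ ≤ δ0 →
      ∀ f : ℝ → ℝ, Measurable f → (∀ x, |f x| ≤ 1) →
      ∫ t in (0:ℝ)..(2 * T + 2), |∫ x in (0:ℝ)..1, f x * (Zn α δ (t + x) - mz α z (t + x))| ≤
        ε / 40 * (2 * T + 2) := by
    have ht : Tendsto (fun T : ℝ => 2 * T + 2) atTop atTop :=
      tendsto_atTop_add_const_right _ _ (Tendsto.const_mul_atTop (by norm_num) tendsto_id)
    exact ht.eventually hev
  filter_upwards [hev', hδ.tL.eventually_ge_atTop lam, hδ.t0.eventually_le_const hδ0,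
    hH.eventually_ge_atTop 1, hHT, eventually_ge_atTop (3:ℝ)] with T h1 h2 h3 h5 h6 h7
  have hT0 : 0 < T := by linarith
  have hlogT : 0 < Real.log T := Real.log_pos (by linarith)
  have hd1 : lam / Real.log (2 * T + 2) ≤ δ T := by
    have ha : lam / Real.log (2 * T + 2) ≤ lam / Real.log T := by
      refine div_le_div_of_nonneg_left (by linarith) hlogT ?_
      exact Real.log_le_log hT0 (by linarith)
    have hb : lam / Real.log T ≤ δ T := by rw [div_le_iff₀ hlogT]; exact h2
    exact ha.trans hb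
  have hdpos : 0 < δ T := by
    have : 0 < δ T * Real.log T := by linarith
    exact (pos_iff_pos_of_mul_pos this).2 hlogT
  have hZ : Continuous (Zn α (δ T)) := WIN.Zn_cont hα hdpos (h3.trans hδ01)
  have hM : Continuous (mz α z) := WIN.mz_cont α z
  set g : ℝ → ℝ := fun u => Zn α (δ T) u - mz α z u with hg
  have hgc : Continuous g := hZ.sub hM
  have hite : Measurable fun c : ℝ => c := measurable_id
  have hf : ∀ w : ℝ → ℝ, Measurable w → (∀ x, |w x| ≤ 1) → ∀ c : ℝ,
      ∫ s in (0:ℝ)..(2 * T + 2), |∫ x in (0:ℝ)..1, ((if x ≤ c then (1:ℝ) else 0) * w x) * g (s + x)| ≤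
        ε / 40 * (2 * T + 2) := by
    intro w hw hw1 c
    refine h1 (δ T) hd1 h3 (fun x => (if x ≤ c then (1:ℝ) else 0) * w x)
      ((Measurable.ite measurableSet_Iic measurable_const measurable_const).mul hw) fun x => ?_
    split_ifs
    · rw [one_mul]; exact hw1 x
    · simp
  have hcw : ∀ (w : ℝ → ℝ) (c : ℝ), Continuous w → Continuous fun s : ℝ =>
      |∫ x in (0:ℝ)..1, ((if x ≤ c then (1:ℝ) else 0) * w x) * g (s + x)| := by
    intro w c hw
    refine Continuous.abs ?_
    have hm : Measurable fun x : ℝ => if x ≤ c then (1:ℝ) else 0 :=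
      Measurable.ite measurableSet_Iic measurable_const measurable_const
    rw [continuous_iff_continuousAt]
    intro s0
    obtain ⟨M, hM⟩ := (isCompact_Icc (a := s0 - 1) (b := s0 + 2)).exists_bound_of_continuousOn hgc.continuousOn
    obtain ⟨W, hW⟩ := (isCompact_Icc (a := (0:ℝ)) (b := 1)).exists_bound_of_continuousOn hw.continuousOn
    refine intervalIntegral.continuousAt_of_dominated_interval (bound := fun _ => W * M) ?_ ?_ ?_ ?_
    · refine Eventually.of_forall fun s => ?_
      exact ((hm.mul hw.measurable).mul (hgc.comp (continuous_const.add continuous_id)).measurable).aestronglyMeasurable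
    · filter_upwards [Metric.ball_mem_nhds s0 one_pos] with s hs
      refine ae_of_all _ fun x hx => ?_
      rw [Set.uIoc_of_le zero_le_one] at hx
      have hx' : x ∈ Set.Icc (0:ℝ) 1 := ⟨hx.1.le, hx.2⟩
      have hs' : s + x ∈ Set.Icc (s0 - 1) (s0 + 2) := by
        rw [Metric.mem_ball, Real.dist_eq, abs_lt] at hs
        constructor <;> linarith [hs.1, hs.2, hx.1, hx.2]
      rw [norm_mul, norm_mul]
      have e1 : ‖(if x ≤ c then (1:ℝ) else 0)‖ ≤ 1 := by split_ifs <;> simp
      have e2 := hW x hx'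
      have e3 := hM (s + x) hs'
      have e4 : ‖(if x ≤ c then (1:ℝ) else 0)‖ * ‖w x‖ ≤ W := by
        calc _ ≤ 1 * ‖w x‖ := mul_le_mul_of_nonneg_right e1 (norm_nonneg _)
          _ ≤ W := by rw [one_mul]; exact e2
      exact mul_le_mul e4 e3 (norm_nonneg _) ((norm_nonneg _).trans e2)
    · exact intervalIntegrable_const
    · refine ae_of_all _ fun x _ => ?_
      exact (continuous_const.mul (hgc.comp (continuous_id.add continuous_const))).continuousAt
  have hE : ∀ trig : ℝ → ℝ, Continuous trig → (∀ c : ℝ, 0 ≤ c → c ≤ 1 → ∀ s : ℝ,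
      |∫ u in s..(s + c), trig u * g u| ≤
      |∫ x in (0:ℝ)..1, ((if x ≤ c then (1:ℝ) else 0) * Real.cos (l * x)) * g (s + x)| +
      |∫ x in (0:ℝ)..1, ((if x ≤ c then (1:ℝ) else 0) * Real.sin (l * x)) * g (s + x)|) →
      ∀ c : ℝ, 0 ≤ c → c ≤ 1 → ∫ s in (0:ℝ)..(2 * T + 2), |∫ u in s..(s + c), trig u * g u| ≤
        ε / 20 * (2 * T + 2) := by
    intro trig htr hb c hc0 hc1
    have e1 := hf (fun x => Real.cos (l * x)) (by fun_prop) (fun x => Real.abs_cos_le_one _) c
    have e2 := hf (fun x => Real.sin (l * x)) (by fun_prop) (fun x => Real.abs_sin_le_one _) c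
    have c1 := hcw (fun x => Real.cos (l * x)) c (by fun_prop)
    have c2 := hcw (fun x => Real.sin (l * x)) c (by fun_prop)
    have e3 : ∫ s in (0:ℝ)..(2 * T + 2), |∫ u in s..(s + c), trig u * g u| ≤
        ∫ s in (0:ℝ)..(2 * T + 2),
          (|∫ x in (0:ℝ)..1, ((if x ≤ c then (1:ℝ) else 0) * Real.cos (l * x)) * g (s + x)| +
          |∫ x in (0:ℝ)..1, ((if x ≤ c then (1:ℝ) else 0) * Real.sin (l * x)) * g (s + x)|) := by
      refine intervalIntegral.integral_mono_on (by linarith) ?_ ?_ fun s _ => hb c hc0 hc1 s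
      · exact ((WIN.prim_cont (htr.mul hgc) c).abs).intervalIntegrable _ _
      · exact (c1.add c2).intervalIntegrable _ _
    refine e3.trans ?_
    rw [intervalIntegral.integral_add (c1.intervalIntegrable _ _) (c2.intervalIntegrable _ _)]
    linarith
  have hcos := WIN.mean_bound (g := fun u => Real.cos (l * u) * g u) (by fun_prop) (by linarith : (1:ℝ) ≤ T) h5 h6
    (hE (fun u => Real.cos (l * u)) (by fun_prop) fun c hc0 hc1 s => window_cos hgc l hc0 hc1 s) (by positivity)
  have hsin := WIN.mean_bound (g := fun u => Real.sin (l * u) * g u) (by fun_prop) (by linarith : (1:ℝ) ≤ T) h5 h6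
    (hE (fun u => Real.sin (l * u)) (by fun_prop) fun c hc0 hc1 s => window_sin hgc l hc0 hc1 s) (by positivity)
  have hH0 : 0 < H T := by linarith
  have hpt : ∀ t : ℝ, ‖(1 / (H T : ℂ)) * (∫ u in t..(t + H T),
      Complex.exp ((l : ℂ) * I * u) * ((g u : ℝ) : ℂ))‖ ≤
      |(1 / H T) * ∫ u in t..(t + H T), Real.cos (l * u) * g u| +
      |(1 / H T) * ∫ u in t..(t + H T), Real.sin (l * u) * g u| := by
    intro t
    have e1 : ∫ u in t..(t + H T), Complex.exp ((l : ℂ) * I * u) * ((g u : ℝ) : ℂ) =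
        ((∫ u in t..(t + H T), Real.cos (l * u) * g u : ℝ) : ℂ) +
        ((∫ u in t..(t + H T), Real.sin (l * u) * g u : ℝ) : ℂ) * I := by
      rw [← intervalIntegral.integral_ofReal, ← intervalIntegral.integral_ofReal,
        ← intervalIntegral.integral_mul_const, ← intervalIntegral.integral_add]
      · refine intervalIntegral.integral_congr fun u _ => ?_
        have e2 : (l : ℂ) * I * u = ((l * u : ℝ) : ℂ) * I := by push_cast; ring
        rw [e2, Complex.exp_mul_I]
        push_cast
        ring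
      · exact (Continuous.intervalIntegrable (by fun_prop) _ _)
      · exact (Continuous.intervalIntegrable (by fun_prop) _ _)
    rw [e1, mul_add]
    refine (norm_add_le _ _).trans (add_le_add (le_of_eq ?_) (le_of_eq ?_))
    · rw [norm_mul, norm_div, norm_one, Complex.norm_real, Complex.norm_real, abs_mul, abs_div, abs_one]
      rfl
    · rw [norm_mul, norm_mul, norm_div, norm_one, Complex.norm_real, Complex.norm_real, Complex.norm_I, mul_one,
        abs_mul, abs_div, abs_one]
      rfl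
  have k1 : Continuous fun t : ℝ => |(1 / H T) * ∫ u in t..(t + H T), Real.cos (l * u) * g u| :=
    (continuous_const.mul (WIN.prim_cont (by fun_prop) _)).abs
  have k2 : Continuous fun t : ℝ => |(1 / H T) * ∫ u in t..(t + H T), Real.sin (l * u) * g u| :=
    (continuous_const.mul (WIN.prim_cont (by fun_prop) _)).abs
  have k3 : Continuous fun t : ℝ => ‖(1 / (H T : ℂ)) * (∫ u in t..(t + H T),
      Complex.exp ((l : ℂ) * I * u) * ((g u : ℝ) : ℂ))‖ := by
    refine (continuous_const.mul ?_).norm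
    have hG : Continuous fun u : ℝ => Complex.exp ((l : ℂ) * I * u) * ((g u : ℝ) : ℂ) := by fun_prop
    have e1 : ∀ s : ℝ, ∫ u in s..(s + H T), Complex.exp ((l : ℂ) * I * u) * ((g u : ℝ) : ℂ) =
        (∫ u in (0:ℝ)..(s + H T), Complex.exp ((l : ℂ) * I * u) * ((g u : ℝ) : ℂ)) -
        ∫ u in (0:ℝ)..s, Complex.exp ((l : ℂ) * I * u) * ((g u : ℝ) : ℂ) := by
      intro s
      rw [← intervalIntegral.integral_interval_sub_left (hG.intervalIntegrable _ _) (hG.intervalIntegrable _ _)]
    simp_rw [e1]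
    have h2 : Continuous fun s : ℝ => ∫ u in (0:ℝ)..s, Complex.exp ((l : ℂ) * I * u) * ((g u : ℝ) : ℂ) :=
      intervalIntegral.continuous_primitive (fun a b => hG.intervalIntegrable a b) 0
    exact (h2.comp (continuous_id.add continuous_const)).sub h2
  calc ∫ t in (0:ℝ)..T, ‖(1 / (H T : ℂ)) * (∫ u in t..(t + H T),
        Complex.exp ((l : ℂ) * I * u) * ((g u : ℝ) : ℂ))‖ ≤
      ∫ t in (0:ℝ)..T, (|(1 / H T) * ∫ u in t..(t + H T), Real.cos (l * u) * g u| +
        |(1 / H T) * ∫ u in t..(t + H T), Real.sin (l * u) * g u|) :=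
        intervalIntegral.integral_mono_on hT0.le (k3.intervalIntegrable _ _) ((k1.add k2).intervalIntegrable _ _)
          fun t _ => hpt t
    _ = (∫ t in (0:ℝ)..T, |(1 / H T) * ∫ u in t..(t + H T), Real.cos (l * u) * g u|) +
        ∫ t in (0:ℝ)..T, |(1 / H T) * ∫ u in t..(t + H T), Real.sin (l * u) * g u| :=
        intervalIntegral.integral_add (k1.intervalIntegrable _ _) (k2.intervalIntegrable _ _)
    _ ≤ 2 * (ε / 20 * (2 * T + 2)) + 2 * (ε / 20 * (2 * T + 2)) := add_le_add hcos hsin
    _ ≤ ε * T := by nlinarith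

end Pool.Agent.U899.TW
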